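import Pool.Agent.LE.StmtsQY
import Pool.Agent.Helper76_LQD.RAL
import Pool.Agent.Helper61_BED.Cov

/-!
# Squad LQY, row TSM (helper47): the second moment on the torus
-/

set_option autoImplicit false

open MeasureTheory ProbabilityTheory Function Filter

open scoped ENNReal BigOperators Topology NNReal ComplexOrder Matrix

noncomputable section

namespace Pool.Agent.LE.QY.H47

open Pool.Agent.Anderson hiding box mem_box card_box
open Pool.Agent.Loc Pool.Agent.Mob Pool.Agent.Helper54.Bal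
  Pool.Agent.Helper96.EXP Pool.Agent.BED
open Pool.Agent.LE.MN Pool.Agent.LE.CL Pool.Agent.LE.IR Pool.Agent.LE.QD Pool.Agent.LE.QF

/-! ### numbers -/

/-- negative powers are large -/
theorem pow_big (θ A : ℝ) (hθ : 0 < θ) (hA : 0 < A) :
    ∃ c : ℝ, 0 < c ∧ ∀ s : ℝ, 0 < s → s ≤ c → A ≤ s ^ (-θ) := by
  refine ⟨A ^ (-(1 / θ)), Real.rpow_pos_of_pos hA _, fun s hs hsc => ?_⟩
  have h1 : (A ^ (-(1 / θ))) ^ (-θ) = A := by
    rw [← Real.rpow_mul hA.le]
    have : -(1 / θ) * -θ = 1 := by field_simp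
    rw [this, Real.rpow_one]
  calc A = (A ^ (-(1 / θ))) ^ (-θ) := h1.symm
    _ ≤ s ^ (-θ) := Real.rpow_le_rpow_of_nonpos hs hsc (by linarith)

theorem pow_anti {s θ θ' : ℝ} (hs : 0 < s) (hs1 : s ≤ 1) (h : θ ≤ θ') : s ^ (-θ) ≤ s ^ (-θ') :=
  Real.rpow_le_rpow_of_exponent_ge hs hs1 (by linarith)

/-- layer cake with powers of two -/
theorem layer (K : ℕ) (x : ℝ) (hx : x ≤ 2 ^ K) :
    x ≤ 1 + ∑ k ∈ Finset.range K, if (2 : ℝ) ^ k < x then (2 : ℝ) ^ k else 0 := by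
  induction K with
  | zero =>
    rw [pow_zero] at hx
    rw [Finset.range_zero, Finset.sum_empty, add_zero]
    exact hx
  | succ K ih =>
    rw [Finset.sum_range_succ]
    by_cases h : (2 : ℝ) ^ K < x
    · rw [if_pos h]
      have h1 : ∑ k ∈ Finset.range K, (2 : ℝ) ^ k ≤
          ∑ k ∈ Finset.range K, if (2 : ℝ) ^ k < x then (2 : ℝ) ^ k else 0 := by
        refine Finset.sum_le_sum fun k hk => ?_
        have h2 : (2 : ℝ) ^ k < x := by
          refine lt_of_le_of_lt ?_ h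
          exact pow_le_pow_right₀ one_le_two (Finset.mem_range.1 hk).le
        rw [if_pos h2]
      have h3 : ∑ k ∈ Finset.range K, (2 : ℝ) ^ k = 2 ^ K - 1 := by
        have := geom_sum_eq (x := (2 : ℝ)) (by norm_num) K
        rw [this]
        norm_num
      rw [pow_succ] at hx
      linarith
    · rw [if_neg h, add_zero]
      exact ih (not_lt.1 h)

variable {d M : ℕ} [NeZero M]

theorem card_tor' (d M : ℕ) [NeZero M] : Fintype.card (Tor d M) = M ^ d := by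
  have : Fintype.card (Tor d M) = Fintype.card (Fin d → ZMod M) := rfl
  rw [this, Fintype.card_fun, ZMod.card, Fintype.card_fin]

/-- the sum at `a` -/
def f2 (V : Tor d M → ℝ) (z : ℂ) (i : Fin d) (a : Tor d M) : ℝ :=
  ∑ y, ‖rs V z a y‖ ^ 2 * (((a - y) i).valMinAbs : ℝ) ^ 2

theorem f2_nn (V : Tor d M → ℝ) (z : ℂ) (i : Fin d) (a : Tor d M) : 0 ≤ f2 V z i a :=
  Finset.sum_nonneg fun _ _ => by positivity

theorem f2_tr (V : Tor d M → ℝ) (z : ℂ) (i : Fin d) (a : Tor d M) :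
    f2 (tr a V) z i 0 = f2 V z i a := by
  unfold f2
  rw [← Equiv.sum_comp (Equiv.addLeft a)
    (fun y => ‖rs V z a y‖ ^ 2 * (((a - y) i).valMinAbs : ℝ) ^ 2)]
  refine Finset.sum_congr rfl fun y _ => ?_
  rw [QD.H76.transl, add_zero, Equiv.coe_addLeft]
  have h1 : (0 : Tor d M) - y = a - (a + y) := by abel
  rw [h1]

theorem f2_meas {z : ℂ} (hz : z.im ≠ 0) (i : Fin d) (a : Tor d M) :
    Measurable fun V : Tor d M → ℝ => f2 V z i a := by
  unfold f2
  refine Finset.measurable_sum _ fun y _ => ?_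
  exact (((QD.H76.cont z hz a y).norm.pow 2).measurable).mul_const _

theorem f2_bd (V : Tor d M → ℝ) {z : ℂ} (hz : 0 < z.im) (i : Fin d) (a : Tor d M) :
    f2 V z i a ≤ (M : ℝ) ^ 2 / z.im ^ 2 := by
  have h1 : ∀ y : Tor d M, (((a - y) i).valMinAbs : ℝ) ^ 2 ≤ (M : ℝ) ^ 2 := by
    intro y
    have h2 := ZMod.natAbs_valMinAbs_le ((a - y) i)
    have h3 : (((a - y) i).valMinAbs.natAbs : ℝ) ≤ (M : ℝ) := by
      exact_mod_cast le_trans h2 (Nat.div_le_self M 2)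
    have h4 : (((a - y) i).valMinAbs : ℝ) ^ 2 = (((a - y) i).valMinAbs.natAbs : ℝ) ^ 2 := by
      rw [Nat.cast_natAbs, Int.cast_abs, sq_abs]
    rw [h4]
    exact pow_le_pow_left₀ (Nat.cast_nonneg _) h3 2
  have h5 : f2 V z i a ≤ (∑ y, ‖rs V z a y‖ ^ 2) * (M : ℝ) ^ 2 := by
    unfold f2
    rw [Finset.sum_mul]
    exact Finset.sum_le_sum fun y _ => mul_le_mul_of_nonneg_left (h1 y) (by positivity)
  have h6 : ∑ y, ‖rs V z a y‖ ^ 2 ≤ 1 / z.im ^ 2 := by
    rw [QD.H76.row V hz a]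
    have h7 : (rs V z a a).im ≤ 1 / z.im :=
      (le_abs_self _).trans ((Complex.abs_im_le_norm _).trans (QD.H76.entry_bd V hz a a))
    calc (rs V z a a).im / z.im ≤ (1 / z.im) / z.im := div_le_div_of_nonneg_right h7 hz.le
      _ = 1 / z.im ^ 2 := by rw [div_div, sq]
  calc f2 V z i a ≤ (∑ y, ‖rs V z a y‖ ^ 2) * (M : ℝ) ^ 2 := h5
    _ ≤ 1 / z.im ^ 2 * (M : ℝ) ^ 2 := mul_le_mul_of_nonneg_right h6 (by positivity)
    _ = (M : ℝ) ^ 2 / z.im ^ 2 := by ring

/-- the mean of the sum at `0` -/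
theorem avg (v : ℝ≥0) {z : ℂ} (hz : z.im ≠ 0) (i : Fin d) :
    ((M ^ d : ℕ) : ℝ≥0∞) * ∫⁻ V, ENNReal.ofReal (f2 V z i 0) ∂(gau d M v) =
      ∫⁻ V, ENNReal.ofReal (∑ a, f2 V z i a) ∂(gau d M v) := by
  have h1 : ∀ a : Tor d M, ∫⁻ V, ENNReal.ofReal (f2 V z i a) ∂(gau d M v) =
      ∫⁻ V, ENNReal.ofReal (f2 V z i 0) ∂(gau d M v) := by
    intro a
    have hmp : MeasurePreserving (tr a) (gau d M v) (gau d M v) :=
      (Pool.Agent.BED.H61.cov d M 0 0 a).2.2.2.2.2 v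
    rw [← hmp.lintegral_comp (f2_meas hz i 0).ennreal_ofReal]
    refine lintegral_congr fun V => ?_
    rw [f2_tr]
  have h2 : ∀ V : Tor d M → ℝ, ENNReal.ofReal (∑ a, f2 V z i a) =
      ∑ a, ENNReal.ofReal (f2 V z i a) := fun V =>
    ENNReal.ofReal_sum_of_nonneg fun a _ => f2_nn V z i a
  simp only [h2]
  rw [lintegral_finsetSum _ fun a _ => (f2_meas hz i a).ennreal_ofReal]
  simp only [h1]
  rw [Finset.sum_const, Finset.card_univ, card_tor', nsmul_eq_mul]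

/-- the bound of a mean by the probabilities -/
theorem mean_le {Ω : Type} [MeasurableSpace Ω] (P : Measure Ω) [IsProbabilityMeasure P]
    (F : Ω → ℝ) (hF : Measurable F) (D C e0 : ℝ) (hD : 0 < D) (hC : 0 ≤ C) (he : 0 ≤ e0) (K : ℕ)
    (hK : ∀ w, F w ≤ D * 2 ^ K)
    (hP : ∀ k : ℕ, k < K → P {w | D * 2 ^ k < F w} ≤ ENNReal.ofReal (C / 2 ^ k + e0)) :
    ∫⁻ w, ENNReal.ofReal (F w) ∂P ≤ ENNReal.ofReal (D * (1 + K * C + 2 ^ K * e0)) := by
  have h1 : ∀ w, ENNReal.ofReal (F w) ≤ ENNReal.ofReal D * (1 + ∑ k ∈ Finset.range K,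
      ({w | D * 2 ^ k < F w} : Set Ω).indicator (fun _ => (2 : ℝ≥0∞) ^ k) w) := by
    intro w
    have h2 := layer K (F w / D) (by
      rw [div_le_iff₀ hD, mul_comm]
      exact hK w)
    have h3 : F w ≤ D * (1 + ∑ k ∈ Finset.range K,
        if (2 : ℝ) ^ k < F w / D then (2 : ℝ) ^ k else 0) := by
      calc F w = D * (F w / D) := by field_simp
        _ ≤ _ := mul_le_mul_of_nonneg_left h2 hD.le
    refine (ENNReal.ofReal_le_ofReal h3).trans (le_of_eq ?_)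
    have hnn : ∀ k : ℕ, (0 : ℝ) ≤ if (2 : ℝ) ^ k < F w / D then (2 : ℝ) ^ k else 0 := by
      intro k
      split_ifs
      · positivity
      · exact le_rfl
    rw [ENNReal.ofReal_mul hD.le, ENNReal.ofReal_add zero_le_one
      (Finset.sum_nonneg fun k _ => hnn k), ENNReal.ofReal_one,
      ENNReal.ofReal_sum_of_nonneg fun k _ => hnn k]
    congr 2
    refine Finset.sum_congr rfl fun k _ => ?_
    have h4 : ((2 : ℝ) ^ k < F w / D) ↔ (w ∈ ({w | D * 2 ^ k < F w} : Set Ω)) := by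
      rw [lt_div_iff₀ hD, mul_comm]
      rfl
    by_cases h5 : w ∈ ({w | D * 2 ^ k < F w} : Set Ω)
    · rw [if_pos (h4.2 h5), Set.indicator_of_mem h5, ENNReal.ofReal_pow (by norm_num)]
      norm_num
    · rw [if_neg fun h => h5 (h4.1 h), Set.indicator_of_notMem h5, ENNReal.ofReal_zero]
  have hms : ∀ k : ℕ, MeasurableSet {w | D * 2 ^ k < F w} := fun k =>
    measurableSet_lt measurable_const hF
  calc ∫⁻ w, ENNReal.ofReal (F w) ∂P
      ≤ ∫⁻ w, ENNReal.ofReal D * (1 + ∑ k ∈ Finset.range K,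
          ({w | D * 2 ^ k < F w} : Set Ω).indicator (fun _ => (2 : ℝ≥0∞) ^ k) w) ∂P :=
        lintegral_mono h1
    _ = ENNReal.ofReal D * (1 + ∑ k ∈ Finset.range K, 2 ^ k * P {w | D * 2 ^ k < F w}) := by
        rw [lintegral_const_mul, lintegral_add_left measurable_const, lintegral_const,
          measure_univ, mul_one, lintegral_finsetSum]
        · congr 2
          refine Finset.sum_congr rfl fun k _ => ?_
          rw [lintegral_indicator (hms k), setLIntegral_const]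
        · intro k _
          exact measurable_const.indicator (hms k)
        · exact Measurable.add (f := fun _ => (1 : ℝ≥0∞)) measurable_const
            (Finset.measurable_sum _ fun k _ => measurable_const.indicator (hms k))
    _ ≤ ENNReal.ofReal D * (1 + ∑ k ∈ Finset.range K, ENNReal.ofReal (C + 2 ^ k * e0)) := by
        gcongr with k hk
        refine (mul_le_mul_right (hP k (Finset.mem_range.1 hk)) _).trans (le_of_eq ?_)
        have h2k : (2 : ℝ≥0∞) ^ k = ENNReal.ofReal ((2 : ℝ) ^ k) := by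
          rw [ENNReal.ofReal_pow (by norm_num)]
          norm_num
        rw [h2k, ← ENNReal.ofReal_mul (by positivity)]
        congr 1
        field_simp
    _ = ENNReal.ofReal (D * (1 + ∑ k ∈ Finset.range K, (C + 2 ^ k * e0))) := by
        rw [ENNReal.ofReal_mul hD.le, ENNReal.ofReal_add zero_le_one
          (Finset.sum_nonneg fun k _ => by positivity), ENNReal.ofReal_one,
          ENNReal.ofReal_sum_of_nonneg fun k _ => by positivity]
    _ ≤ ENNReal.ofReal (D * (1 + K * C + 2 ^ K * e0)) := by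
        refine ENNReal.ofReal_le_ofReal (mul_le_mul_of_nonneg_left ?_ hD.le)
        rw [Finset.sum_add_distrib, Finset.sum_const, Finset.card_range, nsmul_eq_mul,
          ← Finset.sum_mul]
        have h3 : ∑ k ∈ Finset.range K, (2 : ℝ) ^ k = 2 ^ K - 1 := by
          have := geom_sum_eq (x := (2 : ℝ)) (by norm_num) K
          rw [this]
          norm_num
        rw [h3]
        nlinarith

/-- the numbers of the dyadic sum -/
theorem nums (s C e0 : ℝ) (hs : 4 ≤ s) (hC : 1 ≤ C) (he : e0 ≤ Real.exp (-(s ^ 2))) :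
    Real.exp s ^ 2 ≤ 2 ^ ⌈3 * s⌉₊ ∧
      1 + (⌈3 * s⌉₊ : ℝ) * C + 2 ^ ⌈3 * s⌉₊ * e0 ≤ 4 * C * s := by
  obtain ⟨K, hK⟩ : ∃ K : ℕ, K = ⌈3 * s⌉₊ := ⟨_, rfl⟩
  rw [← hK]
  have h1 : 3 * s ≤ K := by
    rw [hK]
    exact Nat.le_ceil _
  have h2 : (K : ℝ) ≤ 3 * s + 1 := by
    rw [hK]
    exact (Nat.ceil_lt_add_one (by linarith)).le
  have h3 : (2 : ℝ) ^ K = Real.exp (K * Real.log 2) := by
    rw [Real.exp_nat_mul, Real.exp_log (by norm_num)]
  have h4 := Real.log_two_gt_d9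
  have h5 := Real.log_two_lt_d9
  constructor
  · rw [h3, ← Real.exp_nat_mul]
    refine Real.exp_le_exp.2 ?_
    push_cast
    nlinarith
  · have h6 : (2 : ℝ) ^ K * e0 ≤ 1 := by
      rw [h3]
      calc Real.exp (K * Real.log 2) * e0
          ≤ Real.exp (3 * s + 1) * Real.exp (-(s ^ 2)) := by
            have h7 : Real.exp (K * Real.log 2) ≤ Real.exp (3 * s + 1) := by
              refine Real.exp_le_exp.2 ?_
              nlinarith
            calc Real.exp (K * Real.log 2) * e0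
                ≤ Real.exp (K * Real.log 2) * Real.exp (-(s ^ 2)) :=
                  mul_le_mul_of_nonneg_left he (Real.exp_nonneg _)
              _ ≤ _ := mul_le_mul_of_nonneg_right h7 (Real.exp_nonneg _)
        _ = Real.exp (3 * s + 1 - s ^ 2) := by
            rw [← Real.exp_add]
            congr 1
        _ ≤ 1 := by
            rw [Real.exp_le_one_iff]
            nlinarith
    have h8 : (K : ℝ) * C ≤ (3 * s + 1) * C := mul_le_mul_of_nonneg_right h2 (by linarith)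
    nlinarith

theorem tsm (hT : TorStmt) : TsmStmt := by
  intro d a ε hd ha hε hε1
  obtain ⟨θ0, c0, C, hθ0, hθ01, hc0, hc04, hC, H⟩ := hT d a ε hd ha hε hε1
  obtain ⟨θ, hθ⟩ : ∃ θ, θ = min θ0 (ε / 2) := ⟨_, rfl⟩
  have hθp : 0 < θ := by
    rw [hθ]
    exact lt_min hθ0 (by linarith)
  have hθle : θ ≤ θ0 := by
    rw [hθ]
    exact min_le_left _ _
  have hθε : θ ≤ ε / 2 := by
    rw [hθ]
    exact min_le_right _ _
  obtain ⟨c1, hc1, h1⟩ := pow_big θ 4 hθp (by norm_num)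
  obtain ⟨c2, hc2, h2⟩ := pow_big (ε / 2) (4 * C ^ 2) (by linarith) (by positivity)
  refine ⟨θ, min c0 (min c1 c2), hθp, lt_min hc0 (lt_min hc1 hc2),
    (min_le_left _ _).trans hc04, ?_⟩
  intro M _ v σ E η i hv hσ hσc hE hM5 hM hηM hη
  have hσp : 0 < |σ| := abs_pos.2 hσ
  have hσ0 : |σ| ≤ c0 := hσc.trans (min_le_left _ _)
  have hσ1 : |σ| ≤ c1 := hσc.trans ((min_le_right _ _).trans (min_le_left _ _))
  have hσ2 : |σ| ≤ c2 := hσc.trans ((min_le_right _ _).trans (min_le_right _ _))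
  have hσone : |σ| ≤ 1 := by linarith
  have hMp : (0 : ℝ) < M := Nat.cast_pos.2 (Nat.pos_of_ne_zero (NeZero.ne M))
  have hMd : (0 : ℝ) < (M : ℝ) ^ d := pow_pos hMp d
  have hηp : 0 < η := by
    have h3 : 0 < η * (M : ℝ) ^ d := (Real.rpow_pos_of_pos hσp _).trans_le hηM
    exact pos_of_mul_pos_left h3 hMd.le
  obtain ⟨s, hs⟩ : ∃ s, s = |σ| ^ (-θ) := ⟨_, rfl⟩
  have hs4 : 4 ≤ s := by
    rw [hs]
    exact h1 _ hσp hσ1
  have hsθ0 : s ≤ |σ| ^ (-θ0) := by
    rw [hs]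
    exact pow_anti hσp hσone hθle
  have he : Real.exp (-(|σ| ^ (-(2 * θ0)))) ≤ Real.exp (-(s ^ 2)) := by
    refine Real.exp_le_exp.2 (neg_le_neg ?_)
    have h3 : |σ| ^ (-(2 * θ0)) = (|σ| ^ (-θ0)) ^ 2 := by
      rw [← Real.rpow_natCast, ← Real.rpow_mul hσp.le]
      congr 1
      push_cast
      ring
    rw [h3]
    exact pow_le_pow_left₀ (by linarith) hsθ0 2
  obtain ⟨hn1, hn2⟩ := nums s C _ hs4 hC he
  obtain ⟨m, -, -, -, Hm⟩ := H M v σ E η hv hσ hσ0 hE hM5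
    (hM.trans (Real.exp_le_exp.2 (pow_anti hσp hσone hθle))) hηM hη
  obtain ⟨z, hz⟩ : ∃ z : ℂ, z = ⟨E, η⟩ := ⟨_, rfl⟩
  have hzi : z.im = η := by rw [hz]
  have hzp : 0 < z.im := by
    rw [hzi]
    exact hηp
  have : IsProbabilityMeasure (gau d M v) := by
    unfold gau
    infer_instance
  obtain ⟨K, hK⟩ : ∃ K : ℕ, K = ⌈3 * s⌉₊ := ⟨_, rfl⟩
  rw [← hK] at hn1 hn2
  obtain ⟨D, hD⟩ : ∃ D : ℝ, D = C * (M : ℝ) ^ d / (σ ^ 2 * η ^ 2) := ⟨_, rfl⟩
  have hσsq : 0 < σ ^ 2 := by positivity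
  have hDp : 0 < D := by
    rw [hD]
    positivity
  have key := mean_le (gau d M v) (fun V => ∑ a, f2 V z i a)
    (Finset.measurable_sum _ fun a _ => f2_meas hzp.ne' i a) D C
    (Real.exp (-(|σ| ^ (-(2 * θ0))))) hDp (by linarith) (Real.exp_nonneg _) K ?_ ?_
  · have h3 := (avg (d := d) (M := M) v hzp.ne' i).trans_le key
    have h4 : ENNReal.ofReal (D * (1 + K * C + 2 ^ K * Real.exp (-(|σ| ^ (-(2 * θ0)))))) ≤
        ((M ^ d : ℕ) : ℝ≥0∞) * ENNReal.ofReal (|σ| ^ (-2 - ε) / η ^ 2) := by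
      have h5 : ((M ^ d : ℕ) : ℝ≥0∞) = ENNReal.ofReal ((M : ℝ) ^ d) := by
        rw [← Nat.cast_pow, ENNReal.ofReal_natCast]
      rw [h5, ← ENNReal.ofReal_mul hMd.le]
      refine ENNReal.ofReal_le_ofReal ?_
      have h6 : |σ| ^ (-2 - ε) = |σ| ^ (-(ε / 2)) * |σ| ^ (-(ε / 2)) / σ ^ 2 := by
        have e1 : (-2 - ε : ℝ) = -(ε / 2) + (-(ε / 2)) + (-2 : ℝ) := by ring
        rw [e1, Real.rpow_add hσp, Real.rpow_add hσp]
        have e2 : |σ| ^ (-2 : ℝ) = 1 / σ ^ 2 := by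
          rw [Real.rpow_neg hσp.le, ← sq_abs σ]
          norm_num
        rw [e2]
        ring
      have h7 : s ≤ |σ| ^ (-(ε / 2)) := by
        rw [hs]
        exact pow_anti hσp hσone hθε
      have h8 : 4 * C ^ 2 ≤ |σ| ^ (-(ε / 2)) := h2 _ hσp hσ2
      have h9 : C * (4 * C * s) ≤ |σ| ^ (-(ε / 2)) * |σ| ^ (-(ε / 2)) := by
        calc C * (4 * C * s) = 4 * C ^ 2 * s := by ring
          _ ≤ |σ| ^ (-(ε / 2)) * |σ| ^ (-(ε / 2)) :=
            mul_le_mul h8 h7 (by linarith) (Real.rpow_nonneg hσp.le _)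
      calc D * (1 + K * C + 2 ^ K * Real.exp (-(|σ| ^ (-(2 * θ0)))))
          ≤ D * (4 * C * s) := mul_le_mul_of_nonneg_left hn2 hDp.le
        _ = (M : ℝ) ^ d / (σ ^ 2 * η ^ 2) * (C * (4 * C * s)) := by
            rw [hD]
            ring
        _ ≤ (M : ℝ) ^ d / (σ ^ 2 * η ^ 2) * (|σ| ^ (-(ε / 2)) * |σ| ^ (-(ε / 2))) :=
            mul_le_mul_of_nonneg_left h9 (by positivity)
        _ = (M : ℝ) ^ d * (|σ| ^ (-2 - ε) / η ^ 2) := by
            rw [h6]
            field_simp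
    have h5 := h3.trans h4
    have h6 : ((M ^ d : ℕ) : ℝ≥0∞) ≠ 0 := by
      rw [Nat.cast_ne_zero]
      exact pow_ne_zero _ (NeZero.ne M)
    have h7 := (ENNReal.mul_le_mul_iff_right h6 (ENNReal.natCast_ne_top _)).1 h5
    refine le_trans (le_of_eq ?_) h7
    refine lintegral_congr fun V => ?_
    rw [hz]
    rfl
  · intro V
    have h3 : ∑ a, f2 V z i a ≤ (M : ℝ) ^ d * ((M : ℝ) ^ 2 / η ^ 2) := by
      calc ∑ a, f2 V z i a ≤ ∑ _a : Tor d M, (M : ℝ) ^ 2 / η ^ 2 :=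
            Finset.sum_le_sum fun a _ => by
              rw [← hzi]
              exact f2_bd V hzp i a
        _ = (M : ℝ) ^ d * ((M : ℝ) ^ 2 / η ^ 2) := by
            rw [Finset.sum_const, Finset.card_univ, card_tor', nsmul_eq_mul]
            push_cast
            rfl
    have h4 : (M : ℝ) ^ 2 ≤ 2 ^ K := by
      refine le_trans ?_ hn1
      rw [hs]
      exact pow_le_pow_left₀ hMp.le hM 2
    have h5 : σ ^ 2 ≤ 1 := by
      rw [← sq_abs]
      exact pow_le_one₀ hσp.le hσone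
    calc ∑ a, f2 V z i a ≤ (M : ℝ) ^ d * ((M : ℝ) ^ 2 / η ^ 2) := h3
      _ ≤ (M : ℝ) ^ d * (2 ^ K / η ^ 2) := by gcongr
      _ = 1 * (M : ℝ) ^ d / (1 * η ^ 2) * 2 ^ K := by ring
      _ ≤ C * (M : ℝ) ^ d / (σ ^ 2 * η ^ 2) * 2 ^ K := by gcongr
      _ = D * 2 ^ K := by rw [hD]
  · intro k _
    have h3 := Hm i (2 ^ k) (one_le_pow₀ one_le_two)
    refine le_trans (measure_mono ?_) h3
    intro V hV
    have hV' : D * 2 ^ k < ∑ a, f2 V z i a := hV
    intro h4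
    have h5 := h4.2.2.2
    have h6 : ∑ x, ∑ y, ‖rs V ⟨E, η⟩ x y‖ ^ 2 * (((x - y) i).valMinAbs : ℝ) ^ 2 =
        ∑ a, f2 V z i a := by
      rw [hz]
      rfl
    rw [h6] at h5
    have h7 : C * 2 ^ k * (M : ℝ) ^ d / (σ ^ 2 * η ^ 2) = D * 2 ^ k := by
      rw [hD]
      ring
    rw [h7] at h5
    exact absurd hV' (not_lt.2 h5)

end Pool.Agent.LE.QY.H47
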