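import Pool.Agent.LE.StmtsQY
import Pool.Agent.Helper60_LQY.Base
import Pool.Agent.Helper47_LQY.TSM

/-!
# Squad LQY, row LOC (helper47): the local law
-/

set_option autoImplicit false

open MeasureTheory ProbabilityTheory Function Filter

open scoped ENNReal BigOperators Topology NNReal ComplexOrder Matrix

noncomputable section

namespace Pool.Agent.LE.QY.H47

open Pool.Agent.Anderson hiding box mem_box card_box
open Pool.Agent.Loc Pool.Agent.Mob Pool.Agent.Helper54.Bal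
  Pool.Agent.Helper96.EXP Pool.Agent.BED
open Pool.Agent.LE.MN Pool.Agent.LE.CL Pool.Agent.LE.IR Pool.Agent.LE.QD Pool.Agent.LE.QF

theorem sd_translate' {d : ℕ} (b x y : Site d) : sd (b + x) (b + y) = sd x y := by
  unfold sd
  refine congrArg _ ?_
  funext i
  rw [Pi.add_apply, Pi.add_apply, add_sub_add_left_eq_sub]

/-- the comparison for one entry -/
theorem entry_le {d M : ℕ} [NeZero M] {C s T : ℝ} {L : ℕ}
    (hC : 1 ≤ C) (hs : 0 < s) (hsC : s ≤ 1 / (512 * C)) (hT : 1 ≤ T) (hL1 : 1 ≤ L)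
    (hTL : T ^ 2 ≤ 8 * s ^ 4 * L) (V : Site d → ℝ) (b : Site d) (z : ℂ) (hz : 1 / T ≤ z.im)
    (x y : Site d) (hy : y ∈ box 0 L)
    (h : ∑ y ∈ box 0 L, ‖G V ⟨z.re, z.im⟩ (del (b + x)) (b + y) -
        rs (fun p : Tor d M => V (b + rep p)) ⟨z.re, z.im⟩ (ti M 0 x) (ti M 0 y)‖ ^ 2 ≤
          C / ((L : ℝ) ^ 6 * z.im ^ 8)) :
    ‖G V z (del (b + x)) (b + y) -
        rs (fun p : Tor d M => V (b + rep p)) z (ti M 0 x) (ti M 0 y)‖ ≤ s := by
  have e0 : (⟨z.re, z.im⟩ : ℂ) = z := Complex.eta z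
  rw [e0] at h
  have hL0 : (0 : ℝ) < L := by exact_mod_cast hL1
  have hT0 : 0 < T := by linarith
  have h1 : ‖G V z (del (b + x)) (b + y) -
      rs (fun p : Tor d M => V (b + rep p)) z (ti M 0 x) (ti M 0 y)‖ ^ 2 ≤
        C / ((L : ℝ) ^ 6 * z.im ^ 8) :=
    (Finset.single_le_sum (f := fun y => ‖G V z (del (b + x)) (b + y) -
      rs (fun p : Tor d M => V (b + rep p)) z (ti M 0 x) (ti M 0 y)‖ ^ 2)
      (fun _ _ => by positivity) hy).trans h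
  have h2 : C / ((L : ℝ) ^ 6 * z.im ^ 8) ≤ s ^ 2 := by
    have e1 : (1 / T) ^ 8 ≤ z.im ^ 8 := pow_le_pow_left₀ (by positivity) hz 8
    have e2 : C / ((L : ℝ) ^ 6 * z.im ^ 8) ≤ C / ((L : ℝ) ^ 6 * (1 / T) ^ 8) := by gcongr
    refine e2.trans ?_
    rw [div_le_iff₀ (by positivity)]
    have e3 : T ^ 12 ≤ 262144 * s ^ 24 * (L : ℝ) ^ 6 := by
      calc T ^ 12 = (T ^ 2) ^ 6 := by ring
        _ ≤ (8 * s ^ 4 * (L : ℝ)) ^ 6 := by gcongr
        _ = 262144 * s ^ 24 * (L : ℝ) ^ 6 := by ring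
    have e4 : T ^ 8 ≤ T ^ 12 := pow_le_pow_right₀ hT (by norm_num)
    have e5 : 512 * C * s ≤ 1 := by
      rw [le_div_iff₀ (by positivity)] at hsC
      linarith
    have e6 : s ≤ 1 := by nlinarith
    have e7 : s ^ 24 ≤ s ^ 4 := pow_le_pow_of_le_one hs.le e6 (by norm_num)
    have e8 : 262144 * C * s ^ 2 ≤ 1 := by
      have e9 : (512 * C * s) * (512 * C * s) ≤ 1 * 1 := by gcongr
      have e10 : C ≤ C * C := by nlinarith
      have e11 : 262144 * C * s ^ 2 ≤ 262144 * (C * C) * s ^ 2 := by gcongr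
      nlinarith
    have e12 : C * T ^ 8 ≤ s ^ 2 * (L : ℝ) ^ 6 := by
      calc C * T ^ 8 ≤ C * (262144 * s ^ 24 * (L : ℝ) ^ 6) := by
            gcongr
            exact e4.trans e3
        _ ≤ C * (262144 * s ^ 4 * (L : ℝ) ^ 6) := by gcongr
        _ = (262144 * C * s ^ 2) * (s ^ 2 * (L : ℝ) ^ 6) := by ring
        _ ≤ 1 * (s ^ 2 * (L : ℝ) ^ 6) := by gcongr
        _ = s ^ 2 * (L : ℝ) ^ 6 := one_mul _
    calc C = C * T ^ 8 * (1 / T) ^ 8 := by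
          rw [one_div, inv_pow]
          field_simp
      _ ≤ s ^ 2 * (L : ℝ) ^ 6 * (1 / T) ^ 8 := by gcongr
      _ = s ^ 2 * ((L : ℝ) ^ 6 * (1 / T) ^ 8) := by ring
  exact (sq_le_sq₀ (norm_nonneg _) hs.le).1 (h1.trans h2)

theorem small_sum {s θ₀ : ℝ} (hs0 : 0 < s) (hs1 : s ≤ 1) (hθ : θ₀ ≤ 1)
    (hu : 3 ≤ s ^ (-(θ₀ / 2))) : s ^ θ₀ + 2 * s ≤ s ^ (θ₀ / 2) := by
  have e1 : s ^ θ₀ = s ^ (θ₀ / 2) * s ^ (θ₀ / 2) := by
    rw [← Real.rpow_add hs0]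
    congr 1
    ring
  have e2 : s ≤ s ^ θ₀ := by
    have := Real.rpow_le_rpow_of_exponent_ge hs0 hs1 hθ
    rwa [Real.rpow_one] at this
  have e3 : s ^ (θ₀ / 2) * s ^ (-(θ₀ / 2)) = 1 := by
    rw [← Real.rpow_add hs0, add_neg_cancel, Real.rpow_zero]
  have e4 : 0 < s ^ (θ₀ / 2) := Real.rpow_pos_of_pos hs0 _
  have e5 : 3 * s ^ (θ₀ / 2) ≤ 1 := by nlinarith
  nlinarith

theorem exp_num {C u : ℝ} (hC : 1 ≤ C) (hu : C + 3 ≤ u) :
    (C + 1) * Real.exp (-(u ^ 4)) ≤ Real.exp (-u) := by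
  have e2 : C + 1 ≤ Real.exp C := Real.add_one_le_exp C
  calc (C + 1) * Real.exp (-(u ^ 4)) ≤ Real.exp C * Real.exp (-(u ^ 4)) := by gcongr
    _ = Real.exp (C - u ^ 4) := by
        rw [← Real.exp_add]
        congr 1
    _ ≤ Real.exp (-u) := by
        refine Real.exp_le_exp.2 ?_
        have e3 : 3 ≤ u := by linarith
        have e4 : u * 3 ≤ u ^ 4 := by
          have e5 : u * 3 ≤ u * u ^ 3 := by
            have : (3 : ℝ) ≤ u ^ 3 := by
              calc (3 : ℝ) ≤ 3 ^ 3 := by norm_num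
                _ ≤ u ^ 3 := by gcongr
            gcongr
          calc u * 3 ≤ u * u ^ 3 := e5
            _ = u ^ 4 := by ring
        linarith

theorem two_le {s T L : ℝ} (hs : 0 < s) (hs4 : s ≤ 1 / 4) (hL : 0 < L) (hT : 64 ≤ T)
    (hTL : T ^ 2 ≤ 8 * s ^ 4 * L) : 2 * T ≤ L := by
  have e1 : s ^ 4 ≤ 1 / 256 := by
    calc s ^ 4 ≤ (1 / 4) ^ 4 := pow_le_pow_left₀ hs.le hs4 4
      _ = 1 / 256 := by norm_num
  have e2 : 8 * s ^ 4 * L ≤ 8 * (1 / 256) * L := by gcongr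
  nlinarith

theorem im_le {s C m T : ℝ} (hs : 0 < s) (hs4 : s ≤ 1 / 4) (hC : 0 < C)
    (hsC : s ≤ 1 / (2 * C)) (hm : m ≤ C) (hT : 1 / T ≤ s ^ 3) : 1 / T + s ^ 2 * m ≤ 1 := by
  have e1 : s ^ 3 ≤ 1 / 64 := by
    calc s ^ 3 ≤ (1 / 4) ^ 3 := pow_le_pow_left₀ hs.le hs4 3
      _ = 1 / 64 := by norm_num
  have e2 : s * C ≤ 1 / 2 := by
    rw [le_div_iff₀ (by positivity)] at hsC
    linarith
  have e3 : s ^ 2 * m ≤ 1 / 2 := by
    calc s ^ 2 * m ≤ s ^ 2 * C := by gcongr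
      _ = s * (s * C) := by ring
      _ ≤ 1 * (1 / 2) := by
        have : s ≤ 1 := by linarith
        gcongr
      _ = 1 / 2 := by ring
  linarith

theorem loc (tor : TorStmt) (ltt : LttStmt) : LocStmt := by
  intro d a hd ha
  have hd1 : 1 ≤ d := by omega
  obtain ⟨θ₀, c₀, C, hθ₀, hθ₀1, hc₀, hc₀4, hC, H⟩ := tor d a 1 hd ha one_pos le_rfl
  obtain ⟨C', hC'1, hL⟩ := ltt d hd1
  obtain ⟨c₁, hc₁, hc₁4, hn⟩ := H60.nums hθ₀
  obtain ⟨c₂, hc₂, h2⟩ := pow_big (θ₀ / 2) (C + 3) (by linarith) (by linarith)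
  obtain ⟨c₃, hc₃⟩ : ∃ c₃ : ℝ, c₃ = min (1 / (512 * C')) (1 / (2 * C)) := ⟨_, rfl⟩
  have hc₃p : 0 < c₃ := by
    rw [hc₃]
    exact lt_min (by positivity) (by positivity)
  refine ⟨θ₀ / 2, min (min c₀ c₁) (min c₂ c₃), by linarith,
    lt_min (lt_min hc₀ hc₁) (lt_min hc₂ hc₃p),
    (min_le_left _ _).trans ((min_le_left _ _).trans hc₀4), ?_⟩
  intro σ E T hσ hσc hE hT hTe
  obtain ⟨s, hs⟩ : ∃ s : ℝ, s = |σ| := ⟨_, rfl⟩
  rw [← hs] at hσc hT hTe ⊢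
  have hs0 : 0 < s := hs ▸ abs_pos.2 hσ
  have hsc0 : s ≤ c₀ := hσc.trans ((min_le_left _ _).trans (min_le_left _ _))
  have hsc1 : s ≤ c₁ := hσc.trans ((min_le_left _ _).trans (min_le_right _ _))
  have hsc2 : s ≤ c₂ := hσc.trans ((min_le_right _ _).trans (min_le_left _ _))
  have hsc3 : s ≤ c₃ := hσc.trans ((min_le_right _ _).trans (min_le_right _ _))
  have hsC' : s ≤ 1 / (512 * C') := hsc3.trans (by rw [hc₃]; exact min_le_left _ _)
  have hsC : s ≤ 1 / (2 * C) := hsc3.trans (by rw [hc₃]; exact min_le_right _ _)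
  have hs1 : s ≤ 1 := by linarith
  obtain ⟨hT64, hT3, hTs, M, L, hM0, hL1, hLM, hTM, hTL, hM5, hMe, hMd⟩ :=
    hn s T hs0 hsc1 hT hTe
  have : NeZero M := ⟨hM0⟩
  have hT0 : 0 < T := by linarith
  have hT1 : 1 ≤ T := by linarith
  have hη : 0 < 1 / T := by positivity
  have hη1 : 1 / T ≤ 1 := by
    rw [div_le_one hT0]
    linarith
  have hL0 : (0 : ℝ) < L := by exact_mod_cast hL1
  have h2TL : 2 * T ≤ L := two_le hs0 (hsc1.trans hc₁4) hL0 hT64 hTL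
  obtain ⟨v, hv⟩ : ∃ v : ℝ≥0, (v : ℝ) = σ ^ 2 := ⟨⟨σ ^ 2, sq_nonneg σ⟩, rfl⟩
  obtain ⟨u, hu⟩ : ∃ u : ℝ, u = s ^ (-(θ₀ / 2)) := ⟨_, rfl⟩
  have huC : C + 3 ≤ u := by
    rw [hu]
    exact h2 s hs0 hsc2
  have hu4 : s ^ (-(2 * θ₀)) = u ^ 4 := by
    rw [hu, ← Real.rpow_natCast, ← Real.rpow_mul hs0.le]
    congr 1
    push_cast
    ring
  obtain ⟨m, hm1, hm2, hm3, Hm⟩ := H M v σ E (1 / T) hv hσ (by rw [← hs]; exact hsc0) hE
    (by rw [← hs]; exact hM5) (by rw [← hs]; exact hMe)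
    (by rw [← hs]; exact hMd d 1 hd le_rfl) (by rw [← hs]; exact hTs)
  obtain ⟨z, hz⟩ : ∃ z : ℂ, z = ⟨E, 1 / T⟩ := ⟨_, rfl⟩
  have hzi : z.im = 1 / T := by rw [hz]
  obtain ⟨z', hz'⟩ : ∃ z' : ℂ, z' = z + (σ : ℂ) ^ 2 * m := ⟨_, rfl⟩
  have hz'i : z'.im = 1 / T + s ^ 2 * m.im := by
    have e1 : ((σ : ℂ) ^ 2 * m).im = s ^ 2 * m.im := by
      rw [← Complex.ofReal_pow, Complex.im_ofReal_mul, hs, sq_abs]
    rw [hz', Complex.add_im, hzi, e1]
  rw [← hz] at hm3 Hm ⊢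
  rw [← hz'] at hm3 Hm
  have hmi : m.im ≤ C := (le_abs_self _).trans ((Complex.abs_im_le_norm _).trans hm2)
  have hz'1 : 1 / T ≤ z'.im := by
    rw [hz'i]
    have : 0 ≤ s ^ 2 * m.im := mul_nonneg (by positivity) (by linarith)
    linarith
  have hz'2 : z'.im ≤ 1 := by
    rw [hz'i]
    exact im_le hs0 (hsc1.trans hc₁4) (zero_lt_one.trans_le hC) hsC hmi hTs
  have hu3 : 3 ≤ u := le_trans (le_add_of_nonneg_left (zero_le_one.trans hC)) huC
  have hθs : s ^ θ₀ + 2 * s ≤ s ^ (θ₀ / 2) :=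
    small_sum hs0 hs1 (hθ₀1.trans (by norm_num)) (by rw [← hu]; exact hu3)
  have hent : ∀ (V : Site d → ℝ) (b : Site d) (w : ℂ), 1 / T ≤ w.im → w.im ≤ 1 →
      ∀ x y : Site d, (sd 0 x : ℝ) ≤ T → (sd 0 y : ℝ) ≤ T →
      ‖G V w (del (b + x)) (b + y) -
        rs (fun p : Tor d M => V (b + rep p)) w (ti M 0 x) (ti M 0 y)‖ ≤ s := by
    intro V b w hw hw1 x y hx hy
    refine entry_le hC'1 hs0 hsC' hT1 hL1 hTL V b w hw x y ?_
      (hL M L V b w.re w.im x (hη.trans_le hw) hw1 hL1 hLM ?_)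
    · rw [mem_box]
      have : (sd 0 y : ℝ) ≤ L := by linarith
      exact_mod_cast this
    · have : (2 * sd 0 x : ℝ) ≤ L := by linarith
      exact_mod_cast this
  refine ⟨m, ?_⟩
  rw [← hz']
  refine ⟨?_, ?_, ?_, ?_⟩
  · exact ((min_le_left _ _).trans (min_le_left _ _)).trans hm1
  · refine hm2.trans ?_
    rw [le_div_iff₀ (lt_min (lt_min hc₀ hc₁) (lt_min hc₂ hc₃p))]
    have e1 : min (min c₀ c₁) (min c₂ c₃) ≤ 1 / (2 * C) :=
      ((min_le_right _ _).trans (min_le_right _ _)).trans (by rw [hc₃]; exact min_le_right _ _)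
    calc C * min (min c₀ c₁) (min c₂ c₃) ≤ C * (1 / (2 * C)) := by gcongr
      _ = 1 / 2 := by field_simp
      _ ≤ 1 := by norm_num
  · have e1 := hent (0 : Site d → ℝ) 0 z' hz'1 hz'2 0 0
      (by rw [sd_self]; push_cast; linarith) (by rw [sd_self]; push_cast; linarith)
    have e2 : (fun p : Tor d M => (0 : Site d → ℝ) (0 + rep p)) = 0 := rfl
    rw [e2, hm3, add_zero, norm_sub_rev] at e1
    have e3 : 0 ≤ s ^ θ₀ := Real.rpow_nonneg hs0.le _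
    linarith
  · intro b
    have h5 := Hm ⟨0, hd1⟩ (Real.exp (s ^ (-(2 * θ₀)))) (Real.one_le_exp
      (Real.rpow_nonneg hs0.le _))
    have h6 := IR.H54.law_le hσ hv b _ h5
    refine le_trans (measure_mono ?_) (h6.trans (ENNReal.ofReal_le_ofReal ?_))
    · intro V hV hP
      refine hV fun x y hx hy => ?_
      obtain ⟨x', hx'⟩ : ∃ x', x = b + x' := ⟨x - b, by abel⟩
      obtain ⟨y', hy'⟩ : ∃ y', y = b + y' := ⟨y - b, by abel⟩
      have e0 : ∀ w : Site d, sd b (b + w) = sd 0 w := by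
        intro w
        have := sd_translate' b 0 w
        rwa [add_zero] at this
      rw [hx', e0] at hx
      rw [hy', e0] at hy
      rw [hx', hy']
      have g1 := hent V b z (by rw [hzi]) (by rw [hzi]; exact hη1) x' y' hx hy
      have g2 := hent (0 : Site d → ℝ) b z' hz'1 hz'2 x' y' hx hy
      have g3 := hP.2.1 (ti M 0 x') (ti M 0 y')
      rw [← hs] at g3
      have e2 : (fun p : Tor d M => (0 : Site d → ℝ) (b + rep p)) = 0 := rfl
      rw [e2, norm_sub_rev] at g2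
      calc ‖G V z (del (b + x')) (b + y') - G (0 : Site d → ℝ) z' (del (b + x')) (b + y')‖
          ≤ ‖G V z (del (b + x')) (b + y') -
              rs (fun p : Tor d M => V (b + rep p)) z (ti M 0 x') (ti M 0 y')‖ +
            ‖rs (fun p : Tor d M => V (b + rep p)) z (ti M 0 x') (ti M 0 y') -
              rs (0 : Tor d M → ℝ) z' (ti M 0 x') (ti M 0 y')‖ +
            ‖rs (0 : Tor d M → ℝ) z' (ti M 0 x') (ti M 0 y') -
              G (0 : Site d → ℝ) z' (del (b + x')) (b + y')‖ := by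
            refine le_trans ?_ (norm_add₃_le)
            rw [sub_add_sub_cancel, sub_add_sub_cancel]
        _ ≤ s + s ^ θ₀ + s := by gcongr
        _ ≤ s ^ (θ₀ / 2) := by linarith
    · rw [← hs, ← hu]
      have e1 : C / Real.exp (s ^ (-(2 * θ₀))) + Real.exp (-(s ^ (-(2 * θ₀)))) =
          (C + 1) * Real.exp (-(u ^ 4)) := by
        rw [hu4, Real.exp_neg]
        ring
      rw [e1]
      exact exp_num hC huC

end Pool.Agent.LE.QY.H47
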